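import Mathlib
import Pool.Prelude.Def_H_3587d628
import Pool.Agent.Lib.MP_4c90a8_lc.Two.Main

namespace Pool.Agent.Results.MP_4c90a8_lc.TwoDimHard

open Pool.Agent.Lib.MP_4c90a8_lc.Two Pool.Agent.Shared.CookLevin

/-- `K` lists the simplices of a finite simplicial complex of dimension at most two with
vertices in the natural numbers: every simplex is a nonempty increasing list of at most three
vertices, and every nonempty face of a listed simplex is listed. -/
def IsComplexDimLe2 (K : List (List ℕ)) : Prop :=
  ∀ s ∈ K, s ≠ [] ∧ s.Pairwise (· < ·) ∧ s.length ≤ 3 ∧ ∀ t, t.Sublist s → t ≠ [] → t ∈ K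

/-- The geometric realisation in barycentric coordinates: the union of the closed standard
simplices spanned by the listed simplices, with the topology of pointwise convergence. -/
def Realization (K : List (List ℕ)) : Set (ℕ → ℝ) :=
  {x | ∃ s ∈ K, (∀ v, 0 ≤ x v) ∧ (∀ v, v ∉ s → x v = 0) ∧ ∑ v ∈ s.toFinset, x v = 1}

/-- Contractibility of finite simplicial complexes of dimension at most two is coNP-hard. -/
theorem result : ∀ L ∈ N68a2faeb.coNP, ∃ f : List Bool → List (List ℕ),
    N68a2faeb.IsPolyTime f ∧ ∀ x, IsComplexDimLe2 (f x) ∧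
      (L x = true ↔ ContractibleSpace (Realization (f x))) := by
  intro L hL
  obtain ⟨φ, hφ, h⟩ := cook_levin_e3 (L := Lᶜ) hL
  refine ⟨fun x => red (φ x), (pt_red hφ).isPolyTime, fun x => ⟨red_ok _, ?_⟩⟩
  obtain ⟨-, hl, hs⟩ := h x
  refine Iff.trans ?_ (red_iff (φ x) hl).symm
  rw [← hs, Pi.compl_apply]
  cases L x <;> simp

end Pool.Agent.Results.MP_4c90a8_lc.TwoDimHard
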