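import Mathlib
import Pool.Agent.Lib.MP_4c90a8_lc.Norm

namespace Pool.Agent.Results.MP_4c90a8_lc.Undecidable3

/-- `K` lists the simplices of a finite simplicial complex of dimension at most three with
vertices in the natural numbers: every simplex is a nonempty increasing list of at most four
vertices, and every nonempty face of a listed simplex is listed. -/
def IsComplexDimLe3 (K : List (List ℕ)) : Prop :=
  ∀ s ∈ K, s ≠ [] ∧ s.Pairwise (· < ·) ∧ s.length ≤ 4 ∧ ∀ t, t.Sublist s → t ≠ [] → t ∈ K

/-- The geometric realisation in barycentric coordinates: the union of the closed standard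
simplices spanned by the listed simplices, with the topology of pointwise convergence. -/
def Realization (K : List (List ℕ)) : Set (ℕ → ℝ) :=
  {x | ∃ s ∈ K, (∀ v, 0 ≤ x v) ∧ (∀ v, v ∉ s → x v = 0) ∧ ∑ v ∈ s.toFinset, x v = 1}

/-- No algorithm decides contractibility of finite simplicial complexes of dimension at most 3. -/
theorem result : ¬ ∃ f : List (List ℕ) → Bool, Computable f ∧
    ∀ K, IsComplexDimLe3 K → (f K = true ↔ ContractibleSpace (Realization K)) := by
  rintro ⟨f, hf, h⟩
  obtain ⟨K, h1, h2, h3⟩ := Pool.Agent.Lib.MP_4c90a8_lc.family'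
  refine Pool.Agent.Shared.GroupUndec.not_computable_halts
    (ComputablePred.computable_iff.2 ⟨fun n => f (K n), hf.comp h1.to_comp, funext fun n => ?_⟩)
  exact propext ((h3 n).symm.trans (h (K n) (h2 n)).symm)

end Pool.Agent.Results.MP_4c90a8_lc.Undecidable3
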